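import Pool.Agent.Helper99.EXC.GoalsE
import Pool.Agent.Helper99.ERW.Telescope

/-!
# Packet HPL of project EXC (`MP_f41a60_pr`)
-/

open Finset MeasureTheory ProbabilityTheory Filter
open scoped ENNReal

namespace Pool.Agent.Helper83.EXC

open Pool.Agent.Helper99.ERW Pool.Agent.Helper99.EXC

/-- The state of a path seen from `y`. -/
def stP (x : ℕ → Site 2) (y : Site 2) (n : ℕ) : St := (x n - y, fun z => visits x n (z + y))

/-- Extension of a finite path by zero. -/
def extP {n : ℕ} (p : Fin (n + 1) → Site 2) : ℕ → Site 2 :=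
  fun j => if h : j < n + 1 then p ⟨j, h⟩ else 0

lemma visits_congr' {x x' : ℕ → Site 2} {n : ℕ} (h : ∀ j < n, x j = x' j) (z : Site 2) :
    visits x n z = visits x' n z := by
  unfold visits
  congr 1
  refine Finset.filter_congr ?_
  intro r hr
  rw [h r (mem_range.mp hr)]

lemma stP_congr {x x' : ℕ → Site 2} {n : ℕ} (h : ∀ j ≤ n, x j = x' j) (y : Site 2) :
    stP x y n = stP x' y n := by
  unfold stP
  rw [h n le_rfl]
  refine Prod.ext rfl ?_
  funext z
  exact visits_congr' (fun j hj => h j hj.le) _

lemma measurable_pw_shift (y z : Site 2) (i : ℕ) :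
    Measurable (fun ω : Env 2 => pw (shift y ω) z i) := by
  unfold pw shift
  fun_prop

lemma measurable_hp (y : Site 2) (N : ℕ) (s : St) :
    Measurable (fun ω : Env 2 => hp (pw (shift y ω)) N s) := by
  induction N generalizing s with
  | zero =>
    simp only [hp]
    exact measurable_const
  | succ N ih =>
    by_cases h : s.1 = 0
    · simp only [hp, h, if_true]
      exact measurable_const
    · simp only [hp, h, if_false]
      unfold stp
      exact (((measurable_pw_shift y _ _).div_const 2).mul ((ih _).add (ih _))).add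
        (((measurable_const.sub (measurable_pw_shift y _ _)).div_const 2).mul ((ih _).add (ih _)))

lemma measurable_hp_hist {Ω : Type*} (env : Ω → Env 2) (X : ℕ → Ω → Site 2) (y : Site 2)
    (N n : ℕ) (Ψ : St → St) :
    Measurable[hist env X n] (fun w => hp (pw (shift y (env w))) N (Ψ (stt X y n w))) := by
  have hE : Measurable[hist env X n] env := measurable_env_hist env X n
  have hP : Measurable[hist env X n] (fun w => fun k : Fin (n + 1) => X k w) :=
    @measurable_pi_lambda _ _ _ (hist env X n) _ _
      fun k => measurable_walk_hist env X (Nat.lt_succ_iff.mp k.2)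
  have hF : Measurable (fun q : Env 2 × (Fin (n + 1) → Site 2) =>
      hp (pw (shift y q.1)) N (Ψ (stP (extP q.2) y n))) := by
    refine measurable_from_prod_countable_left fun p => ?_
    exact measurable_hp y N (Ψ (stP (extP p) y n))
  have h1 := hF.comp (hE.prodMk hP)
  have h2 : (fun w => hp (pw (shift y (env w))) N (Ψ (stt X y n w))) =
      (fun q : Env 2 × (Fin (n + 1) → Site 2) =>
        hp (pw (shift y q.1)) N (Ψ (stP (extP q.2) y n))) ∘
        (fun w => (env w, fun k : Fin (n + 1) => X k w)) := by
    funext w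
    have h3 : stt X y n w = stP (extP (fun k : Fin (n + 1) => X k w)) y n := by
      have : stt X y n w = stP (fun k => X k w) y n := rfl
      rw [this]
      refine stP_congr (fun j hj => ?_) y
      unfold extP
      rw [dif_pos (by omega)]
    simp only [Function.comp]
    rw [h3]
  rw [h2]
  exact h1

lemma hp_bounds {p : Site 2 → ℕ → ℝ} (h0 : ∀ z i, 0 ≤ p z i) (h1 : ∀ z i, p z i ≤ 1)
    (N : ℕ) (s : St) : 0 ≤ hp p N s ∧ hp p N s ≤ 1 := by
  induction N generalizing s with
  | zero =>
    simp only [hp]
    split_ifs <;> norm_num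
  | succ N ih =>
    simp only [hp]
    split_ifs with h
    · norm_num
    · unfold stp
      have a := h0 s.1 (s.2 s.1)
      have b := h1 s.1 (s.2 s.1)
      set q := p s.1 (s.2 s.1)
      obtain ⟨a1, b1⟩ := ih (nxt s (0, true))
      obtain ⟨a2, b2⟩ := ih (nxt s (0, false))
      obtain ⟨a3, b3⟩ := ih (nxt s (1, true))
      obtain ⟨a4, b4⟩ := ih (nxt s (1, false))
      constructor
      · have h5 := mul_nonneg (div_nonneg a zero_le_two) (add_nonneg a1 a2)
        have h6 := mul_nonneg (div_nonneg (sub_nonneg.mpr b) zero_le_two) (add_nonneg a3 a4)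
        linarith
      · have h5 : q / 2 * (hp p N (nxt s (0, true)) + hp p N (nxt s (0, false))) ≤ q / 2 * 2 :=
          mul_le_mul_of_nonneg_left (by linarith) (by linarith)
        have h6 : (1 - q) / 2 * (hp p N (nxt s (1, true)) + hp p N (nxt s (1, false))) ≤
            (1 - q) / 2 * 2 :=
          mul_le_mul_of_nonneg_left (by linarith) (by linarith)
        linarith

lemma sum_dir {f : Dir 2 → ℝ} : ∑ e, f e =
    f (0, true) + f (0, false) + (f (1, true) + f (1, false)) := by
  rw [Fintype.sum_prod_type, Fin.sum_univ_two]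
  simp only [Fintype.sum_bool]

lemma pw_bounds {ω : Env 2} (hc : IsCookieEnv ω) (hb : IsBalanced ω) (z : Site 2) (i : ℕ) :
    0 ≤ pw ω z i ∧ pw ω z i ≤ 1 := by
  unfold pw
  have h1 := (hc z i).2
  rw [sum_dir] at h1
  have h2 := (hc z i).1
  have h3 := hb z 0 i
  have a1 := h2 (0, true)
  have a3 := h2 (1, true)
  have a4 := h2 (1, false)
  constructor
  · linarith
  · linarith

lemma shift_cookie {ω : Env 2} (hc : IsCookieEnv ω) (y : Site 2) : IsCookieEnv (shift y ω) :=
  fun z i => hc (z + y) i

lemma shift_balanced {ω : Env 2} (hb : IsBalanced ω) (y : Site 2) : IsBalanced (shift y ω) :=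
  fun z l i => hb (z + y) l i

/-- One step of `hp` away from the origin, in terms of the cookies. -/
lemma hp_step {Ω : Type*} (env : Ω → Env 2) (X : ℕ → Ω → Site 2) (y : Site 2) (N n : ℕ) (w : Ω)
    (hc : IsCookieEnv (env w)) (hb : IsBalanced (env w)) (hy : X n w ≠ y) :
    hp (pw (shift y (env w))) (N + 1) (stt X y n w) =
      ∑ e, env w (X n w) e (pastVisits (fun k => X k w) n) *
        hp (pw (shift y (env w))) N (nxt (stt X y n w) e) := by
  have h0 : ¬ (stt X y n w).1 = 0 := by
    intro h
    apply hy
    exact sub_eq_zero.mp h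
  rw [sum_dir]
  have h1 : hp (pw (shift y (env w))) (N + 1) (stt X y n w) =
      stp (pw (shift y (env w))) (hp (pw (shift y (env w))) N) (stt X y n w) := by
    simp only [hp]
    rw [if_neg h0]
  rw [h1]
  unfold stp
  have h2 : pw (shift y (env w)) (stt X y n w).1 ((stt X y n w).2 (stt X y n w).1) =
      2 * env w (X n w) (0, true) (pastVisits (fun k => X k w) n) := by
    have h3 : (stt X y n w).1 + y = X n w := sub_add_cancel _ _
    have h4 : (stt X y n w).2 (stt X y n w).1 = pastVisits (fun k => X k w) n := by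
      rw [pastVisits_eq]
      change visits (fun j => X j w) n ((stt X y n w).1 + y) = _
      rw [h3]
    rw [h4]
    unfold pw shift
    rw [h3]
  rw [h2]
  have h5 := (hc (X n w) (pastVisits (fun k => X k w) n)).2
  rw [sum_dir] at h5
  have h6 := hb (X n w) 0 (pastVisits (fun k => X k w) n)
  have h7 := hb (X n w) 1 (pastVisits (fun k => X k w) n)
  set c0 := env w (X n w) (0, true) (pastVisits (fun k => X k w) n)
  set c1 := env w (X n w) (1, true) (pastVisits (fun k => X k w) n)
  rw [← h6, ← h7] at h5 ⊢
  have h8 : (1 - 2 * c0) / 2 = c1 := by linarith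
  rw [h8]
  ring

lemma nxt_stt {Ω : Type*} (X : ℕ → Ω → Site 2) (y : Site 2) (n : ℕ) (w : Ω) (e : Dir 2)
    (h : w ∈ stepSet X n e) : nxt (stt X y n w) e = stt X y (n + 1) w := by
  have h' : X (n + 1) w = X n w + vec e := h
  unfold nxt
  refine Prod.ext ?_ ?_
  · change X n w - y + vec e = X (n + 1) w - y
    rw [h']
    abel
  · funext z
    change Function.update (fun z => visits (fun j => X j w) n (z + y)) (X n w - y)
      (visits (fun j => X j w) n (X n w - y + y) + 1) z = visits (fun j => X j w) (n + 1) (z + y)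
    rw [visits_succ]
    by_cases hz : z = X n w - y
    · subst hz
      rw [Function.update_self, sub_add_cancel, if_pos rfl]
    · rw [Function.update_of_ne hz, if_neg, add_zero]
      intro h3
      apply hz
      rw [h3]
      simp

/-- Clamping to the unit interval. -/
noncomputable def cl (x : ℝ) : ℝ := max 0 (min 1 x)

lemma measurable_cl : Measurable cl := by
  unfold cl
  fun_prop

lemma cl_of {x : ℝ} (h0 : 0 ≤ x) (h1 : x ≤ 1) : cl x = x := by
  unfold cl
  rw [min_eq_right h1, max_eq_right h0]

lemma abs_cl (x : ℝ) : |cl x| ≤ 1 := by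
  unfold cl
  rw [abs_of_nonneg (le_max_left _ _)]
  exact max_le zero_le_one (min_le_left _ _)

/-- PACKET HPL. -/
theorem HPL (hONE : ONE_stmt) : HPL_stmt := by
  intro Ω mΩ P μ _ env X h hP hB y N n
  refine ⟨measurable_hp_hist env X y N n id, ?_⟩
  have hae : ∀ᵐ w ∂μ, IsCookieEnv (env w) ∧ IsBalanced (env w) := by
    filter_upwards [h.ae_env hP, h.ae_env hB] with w h1 h2
    exact ⟨h1, h2⟩
  have hbd : ∀ (N : ℕ) (s : Ω → St), ∀ᵐ w ∂μ, 0 ≤ hp (pw (shift y (env w))) N (s w) ∧
      hp (pw (shift y (env w))) N (s w) ≤ 1 := by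
    intro N s
    filter_upwards [hae] with w hw
    exact hp_bounds (fun z i => (pw_bounds (shift_cookie hw.1 y) (shift_balanced hw.2 y) z i).1)
      (fun z i => (pw_bounds (shift_cookie hw.1 y) (shift_balanced hw.2 y) z i).2) N _
  have hint : ∀ (N n : ℕ) (Ψ : St → St),
      Integrable (fun w => hp (pw (shift y (env w))) N (Ψ (stt X y n w))) μ := by
    intro N n Ψ
    refine Integrable.of_bound (C := 1)
      ((measurable_hp_hist env X y N n Ψ).mono (h.hist_le n) le_rfl).aestronglyMeasurable ?_
    filter_upwards [hbd N (fun w => Ψ (stt X y n w))] with w hw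
    rw [Real.norm_eq_abs, abs_of_nonneg hw.1]
    exact hw.2
  have hHm : ∀ n N : ℕ, MeasurableSet {w | ∃ i, n ≤ i ∧ i ≤ n + N ∧ X i w = y} := by
    intro n N
    have : {w | ∃ i, n ≤ i ∧ i ≤ n + N ∧ X i w = y} = ⋃ i ∈ Set.Icc n (n + N), X i ⁻¹' {y} := by
      ext w
      simp only [Set.mem_ofPred_eq, Set.mem_iUnion, Set.mem_Icc, Set.mem_preimage,
        Set.mem_singleton_iff, exists_prop]
      constructor
      · rintro ⟨i, h1, h2, h3⟩
        exact ⟨i, ⟨h1, h2⟩, h3⟩
      · rintro ⟨i, ⟨h1, h2⟩, h3⟩
        exact ⟨i, h1, h2, h3⟩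
    rw [this]
    exact MeasurableSet.biUnion (Set.to_countable _)
      fun i _ => h.measurable_walk i (measurableSet_singleton y)
  induction N generalizing n with
  | zero =>
    intro E hE
    have hEm := h.hist_le n _ hE
    have hym : MeasurableSet {w | X n w = y} := h.measurable_walk n (measurableSet_singleton y)
    have h1 : ∀ w, hp (pw (shift y (env w))) 0 (stt X y n w) =
        Set.indicator {w | X n w = y} (fun _ => (1 : ℝ)) w := by
      intro w
      simp only [hp]
      by_cases hw : X n w = y
      · rw [Set.indicator_of_mem (show w ∈ {w | X n w = y} from hw), if_pos]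
        exact sub_eq_zero.mpr hw
      · rw [Set.indicator_of_notMem (show w ∉ {w | X n w = y} from hw), if_neg]
        intro h2
        exact hw (sub_eq_zero.mp h2)
    simp_rw [h1]
    rw [setIntegral_indicator hym]
    simp only [integral_const, MeasurableSet.univ, measureReal_restrict_apply, Set.univ_inter,
      smul_eq_mul, mul_one]
    refine measureReal_mono ?_
    rintro w ⟨hw1, hw2⟩
    exact ⟨hw1, n, le_rfl, by omega, hw2⟩
  | succ N ih =>
    intro E hE
    have hEm := h.hist_le n _ hE
    have hyh : MeasurableSet[hist env X n] {w | X n w = y} :=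
      measurable_walk_hist env X le_rfl (measurableSet_singleton y)
    have hym : MeasurableSet {w | X n w = y} := h.hist_le n _ hyh
    set H : Set Ω := {w | ∃ i, n ≤ i ∧ i ≤ n + (N + 1) ∧ X i w = y} with hH
    have hHm' : MeasurableSet H := hHm n (N + 1)
    -- split
    have hsplit : ∫ w in E, hp (pw (shift y (env w))) (N + 1) (stt X y n w) ∂μ =
        ∫ w in E ∩ {w | X n w = y}, hp (pw (shift y (env w))) (N + 1) (stt X y n w) ∂μ +
        ∫ w in E \ {w | X n w = y}, hp (pw (shift y (env w))) (N + 1) (stt X y n w) ∂μ :=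
      (integral_inter_add_sdiff hym (hint (N + 1) n id).integrableOn).symm
    have hfirst : ∫ w in E ∩ {w | X n w = y}, hp (pw (shift y (env w))) (N + 1) (stt X y n w) ∂μ ≤
        μ.real (E ∩ {w | X n w = y}) := by
      rw [setIntegral_congr_fun (g := fun _ => (1 : ℝ)) (hEm.inter hym)]
      · simp
      · intro w hw
        have hw2 : X n w = y := hw.2
        simp only [hp]
        rw [if_pos]
        exact sub_eq_zero.mpr hw2
    set E2 : Set Ω := E \ {w | X n w = y} with hE2
    have hE2h : MeasurableSet[hist env X n] E2 :=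
      @MeasurableSet.diff _ (hist env X n) _ _ hE hyh
    have hE2m : MeasurableSet E2 := hEm.diff hym
    have hcint : ∀ e, Integrable (fun w => env w (X n w) e (pastVisits (fun k => X k w) n) *
        hp (pw (shift y (env w))) N (nxt (stt X y n w) e)) μ := by
      intro e
      refine Integrable.of_bound (C := 1) ?_ ?_
      · refine Measurable.aestronglyMeasurable (Measurable.mul ?_ ?_)
        · exact (measurable_cookie_hist env X le_rfl e).mono (h.hist_le n) le_rfl
        · exact (measurable_hp_hist env X y N n (fun s => nxt s e)).mono (h.hist_le n) le_rfl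
      · filter_upwards [hae, hbd N (fun w => nxt (stt X y n w) e)] with w hw1 hw2
        rw [norm_mul, Real.norm_eq_abs, Real.norm_eq_abs, abs_of_nonneg ((hw1.1 _ _).1 _),
          abs_of_nonneg hw2.1]
        calc _ ≤ (1 : ℝ) * 1 := mul_le_mul (cookie_le_one hw1.1 _ _ _) hw2.2 hw2.1 zero_le_one
          _ = 1 := one_mul 1
    have hsecond : ∫ w in E2, hp (pw (shift y (env w))) (N + 1) (stt X y n w) ∂μ =
        ∑ e, ∫ w in E2, env w (X n w) e (pastVisits (fun k => X k w) n) *
          hp (pw (shift y (env w))) N (nxt (stt X y n w) e) ∂μ := by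
      rw [← integral_finsetSum _ (fun e _ => (hcint e).integrableOn)]
      refine setIntegral_congr_ae hE2m ?_
      filter_upwards [hae] with w hw hw2
      exact hp_step env X y N n w hw.1 hw.2 (fun h3 => hw2.2 h3)
    have hdir : ∀ e, ∫ w in E2, env w (X n w) e (pastVisits (fun k => X k w) n) *
          hp (pw (shift y (env w))) N (nxt (stt X y n w) e) ∂μ ≤
        μ.real (E2 ∩ H ∩ stepSet X n e) := by
      intro e
      have hg : Measurable[hist env X n]
          (fun w => cl (hp (pw (shift y (env w))) N (nxt (stt X y n w) e))) := by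
        exact measurable_cl.comp (measurable_hp_hist env X y N n (fun s => nxt s e))
      have h1 := hONE Ω mΩ P μ env X h hP n e E2 hE2h
        (fun w => cl (hp (pw (shift y (env w))) N (nxt (stt X y n w) e))) hg
        ⟨1, fun w => abs_cl _⟩
      have h2 : ∫ w in E2, env w (X n w) e (pastVisits (fun k => X k w) n) *
          hp (pw (shift y (env w))) N (nxt (stt X y n w) e) ∂μ =
          ∫ w in E2, env w (X n w) e (pastVisits (fun k => X k w) n) *
          cl (hp (pw (shift y (env w))) N (nxt (stt X y n w) e)) ∂μ := by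
        refine setIntegral_congr_ae hE2m ?_
        filter_upwards [hbd N (fun w => nxt (stt X y n w) e)] with w hw _
        rw [cl_of hw.1 hw.2]
      rw [h2, ← h1]
      have hsm := h.measurableSet_stepSet n e
      have h3 : ∫ w in E2 ∩ stepSet X n e,
          cl (hp (pw (shift y (env w))) N (nxt (stt X y n w) e)) ∂μ =
          ∫ w in E2 ∩ stepSet X n e, hp (pw (shift y (env w))) N (stt X y (n + 1) w) ∂μ := by
        refine setIntegral_congr_ae (hE2m.inter hsm) ?_
        filter_upwards [hbd N (fun w => nxt (stt X y n w) e)] with w hw hw2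
        rw [cl_of hw.1 hw.2, nxt_stt X y n w e hw2.2]
      rw [h3]
      have hsh : MeasurableSet[hist env X (n + 1)] (stepSet X n e) := by
        have a1 : Measurable[hist env X (n + 1)] (X (n + 1)) :=
          measurable_walk_hist env X le_rfl
        have a2 : Measurable[hist env X (n + 1)] (X n) :=
          measurable_walk_hist env X (Nat.le_succ n)
        have a3 : Measurable[hist env X (n + 1)] (fun w => X n w + vec e) :=
          (measurable_of_countable (fun x : Site 2 => x + vec e)).comp a2
        exact measurableSet_eq_fun a1 a3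
      have hEE : MeasurableSet[hist env X (n + 1)] (E2 ∩ stepSet X n e) :=
        @MeasurableSet.inter _ (hist env X (n + 1)) _ _
          (hist_mono env X (Nat.le_succ n) _ hE2h) hsh
      refine (ih (n + 1) (E2 ∩ stepSet X n e) hEE).trans ?_
      refine measureReal_mono ?_
      rintro w ⟨⟨hw1, hw2⟩, i, hi1, hi2, hi3⟩
      exact ⟨⟨hw1, i, by omega, by omega, hi3⟩, hw2⟩
    have hsum : ∑ e, μ.real (E2 ∩ H ∩ stepSet X n e) ≤ μ.real (E2 ∩ H) := by
      have h1 : ∑ e, μ.real (E2 ∩ H ∩ stepSet X n e) =
          μ.real (⋃ e, E2 ∩ H ∩ stepSet X n e) := by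
        rw [measureReal_iUnion_fintype ?_
          (fun e => (hE2m.inter hHm').inter (h.measurableSet_stepSet n e))]
        intro e e' hne
        rw [Function.onFun, Set.disjoint_left]
        intro w hw hw'
        apply hne
        have h5 : X n w + vec e = X n w + vec e' := by
          rw [← show X (n+1) w = X n w + vec e from hw.2,
            show X (n+1) w = X n w + vec e' from hw'.2]
        exact vec_injective (add_left_cancel h5)
      rw [h1]
      refine measureReal_mono ?_
      refine Set.iUnion_subset fun e => ?_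
      exact Set.inter_subset_left
    have hfin : μ.real (E ∩ {w | X n w = y}) + μ.real (E2 ∩ H) = μ.real (E ∩ H) := by
      have h1 : μ.real (E ∩ H ∩ {w | X n w = y}) + μ.real ((E ∩ H) \ {w | X n w = y}) =
          μ.real (E ∩ H) := measureReal_inter_add_sdiff hym
      have h2 : E ∩ H ∩ {w | X n w = y} = E ∩ {w | X n w = y} := by
        ext w
        constructor
        · rintro ⟨⟨a, _⟩, c⟩
          exact ⟨a, c⟩
        · rintro ⟨a, c⟩
          exact ⟨⟨a, n, le_rfl, by omega, c⟩, c⟩
      have h3 : (E ∩ H) \ {w | X n w = y} = E2 ∩ H := by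
        ext w
        constructor
        · rintro ⟨⟨a, b⟩, c⟩
          exact ⟨⟨a, c⟩, b⟩
        · rintro ⟨⟨a, c⟩, b⟩
          exact ⟨⟨a, b⟩, c⟩
      rw [h2, h3] at h1
      exact h1
    rw [hsplit, hsecond]
    calc _ ≤ μ.real (E ∩ {w | X n w = y}) + ∑ e, μ.real (E2 ∩ H ∩ stepSet X n e) :=
          add_le_add hfirst (Finset.sum_le_sum fun e _ => hdir e)
      _ ≤ μ.real (E ∩ {w | X n w = y}) + μ.real (E2 ∩ H) := by linarith
      _ = μ.real (E ∩ H) := hfin

end Pool.Agent.Helper83.EXC
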