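import Pool.Agent.Helper99.EXC.GoalsK

/-!
# Packet LAP of project EXC (`MP_f41a60_pr`): the Laplacian of the potential kernel
-/

open Finset MeasureTheory

namespace Pool.Agent.Helper83.EXC

open Pool.Agent.Helper99.ERW Pool.Agent.Helper99.EXC

/-- the integrand -/
noncomputable def FF (a : ℝ) (x : ℤ) (n : ℕ) (θ : ℝ) : ℝ :=
  (1 - rho a θ ^ n * Real.cos (x * θ)) / dd a θ

lemma pot_eq (a : ℝ) (x y : ℤ) :
    pot a x y = 1 / (2 * Real.pi) * ∫ θ in (-Real.pi)..Real.pi, FF a x y.natAbs θ := rfl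

lemma cos_add_sub (x : ℤ) (θ : ℝ) :
    Real.cos (((x + 1 : ℤ) : ℝ) * θ) + Real.cos (((x - 1 : ℤ) : ℝ) * θ) =
      2 * Real.cos (x * θ) * Real.cos θ := by
  have h1 : ((x + 1 : ℤ) : ℝ) * θ = x * θ + θ := by push_cast; ring
  have h2 : ((x - 1 : ℤ) : ℝ) * θ = x * θ - θ := by push_cast; ring
  rw [h1, h2, Real.cos_add, Real.cos_sub]
  ring

lemma key (a : ℝ) (x y : ℤ) (θ : ℝ) (hD : dd a θ ≠ 0) (hρ : 0 < rho a θ)
    (h1 : (1 - a) / 2 * (rho a θ ^ 2 + 1) = (lam a θ + (1 - a)) * rho a θ)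
    (h2 : (1 - a) / 2 * (1 - rho a θ ^ 2) = dd a θ * rho a θ) :
    (a * (FF a (x + 1) y.natAbs θ + FF a (x - 1) y.natAbs θ - 2 * FF a x y.natAbs θ) +
      (1 - a) * (FF a x (y + 1).natAbs θ + FF a x (y - 1).natAbs θ - 2 * FF a x y.natAbs θ)) / 2 =
      if y = 0 then Real.cos (x * θ) else 0 := by
  have hc := cos_add_sub x θ
  have hlam : lam a θ = a * (1 - Real.cos θ) := rfl
  have hmain : (a * (FF a (x + 1) y.natAbs θ + FF a (x - 1) y.natAbs θ - 2 * FF a x y.natAbs θ) +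
      (1 - a) * (FF a x (y + 1).natAbs θ + FF a x (y - 1).natAbs θ - 2 * FF a x y.natAbs θ)) / 2 =
      Real.cos (x * θ) / dd a θ * ((lam a θ + (1 - a)) * rho a θ ^ y.natAbs -
        (1 - a) / 2 * (rho a θ ^ (y + 1).natAbs + rho a θ ^ (y - 1).natAbs)) := by
    unfold FF
    have e1 : a * ((1 - rho a θ ^ y.natAbs * Real.cos (((x + 1 : ℤ) : ℝ) * θ)) / dd a θ +
        (1 - rho a θ ^ y.natAbs * Real.cos (((x - 1 : ℤ) : ℝ) * θ)) / dd a θ -
        2 * ((1 - rho a θ ^ y.natAbs * Real.cos (x * θ)) / dd a θ)) =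
        2 * lam a θ * rho a θ ^ y.natAbs * Real.cos (x * θ) / dd a θ := by
      rw [hlam]
      generalize Real.cos (((x + 1 : ℤ) : ℝ) * θ) = c1 at hc ⊢
      generalize Real.cos (((x - 1 : ℤ) : ℝ) * θ) = c2 at hc ⊢
      generalize Real.cos ((x : ℝ) * θ) = c3 at hc ⊢
      have hc2 : c2 = 2 * c3 * Real.cos θ - c1 := by linarith
      rw [hc2]
      field_simp
      ring
    rw [e1]
    field_simp
    ring
  rw [hmain]
  rcases eq_or_ne y 0 with rfl | hy
  · rw [if_pos rfl]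
    simp only [zero_add, zero_sub, Int.natAbs_zero, pow_zero, mul_one, Int.natAbs_neg, Int.natAbs_one,
      pow_one]
    have h3 : lam a θ + (1 - a) - (1 - a) / 2 * (rho a θ + rho a θ) = dd a θ := by
      have h4 : (lam a θ + (1 - a) - (1 - a) / 2 * (rho a θ + rho a θ)) * rho a θ =
          dd a θ * rho a θ := by
        rw [← h2]
        linear_combination (-1 : ℝ) * h1
      exact mul_right_cancel₀ hρ.ne' h4
    rw [h3]
    field_simp
  · rw [if_neg hy]
    have h5 : ∃ m : ℕ, y.natAbs = m + 1 ∧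
        rho a θ ^ (y + 1).natAbs + rho a θ ^ (y - 1).natAbs = rho a θ ^ (m + 2) + rho a θ ^ m := by
      rcases lt_or_gt_of_ne hy with h | h
      · refine ⟨y.natAbs - 1, by omega, ?_⟩
        have e1 : (y + 1).natAbs = y.natAbs - 1 := by omega
        have e2 : (y - 1).natAbs = y.natAbs - 1 + 2 := by omega
        rw [e1, e2, add_comm]
      · refine ⟨y.natAbs - 1, by omega, ?_⟩
        have e1 : (y + 1).natAbs = y.natAbs - 1 + 2 := by omega
        have e2 : (y - 1).natAbs = y.natAbs - 1 := by omega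
        rw [e1, e2]
    obtain ⟨m, hm, he⟩ := h5
    rw [he, hm]
    have h6 : (lam a θ + (1 - a)) * rho a θ ^ (m + 1) -
        (1 - a) / 2 * (rho a θ ^ (m + 2) + rho a θ ^ m) = 0 := by
      have : (lam a θ + (1 - a)) * rho a θ ^ (m + 1) -
        (1 - a) / 2 * (rho a θ ^ (m + 2) + rho a θ ^ m) =
        rho a θ ^ m * ((lam a θ + (1 - a)) * rho a θ - (1 - a) / 2 * (rho a θ ^ 2 + 1)) := by ring
      rw [this, h1]
      ring
    rw [h6, mul_zero]

lemma int_cos (x : ℤ) : ∫ θ in (-Real.pi)..Real.pi, Real.cos (x * θ) =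
    if x = 0 then 2 * Real.pi else 0 := by
  rcases eq_or_ne x 0 with rfl | hx
  · rw [if_pos rfl]
    simp
    ring
  · rw [if_neg hx]
    have hx' : (x : ℝ) ≠ 0 := by exact_mod_cast hx
    rw [intervalIntegral.integral_comp_mul_left _ hx', integral_cos, mul_neg, Real.sin_neg,
      Real.sin_int_mul_pi]
    simp

/-- PACKET LAP. -/
theorem LAP (hRHO : RHO_stmt) (hINT : INT_stmt) : LAP_stmt := by
  intro a ha0 ha1 z
  obtain ⟨-, -, -, -, -, hρ, -, h1, h2, c, C, hc, -, hb⟩ := hRHO a ha0 ha1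
  obtain ⟨hI, -, -, -⟩ := hINT a ha0 ha1
  have hI' : ∀ (x : ℤ) (n : ℕ), IntervalIntegrable (FF a x n) volume (-Real.pi) Real.pi := hI
  have e0t : ∀ z : Site 2, (z + vec ((0 : Fin 2), true)) 0 = z 0 + 1 ∧
      (z + vec ((0 : Fin 2), true)) 1 = z 1 := by
    intro z; simp [vec]
  have e0f : ∀ z : Site 2, (z + vec ((0 : Fin 2), false)) 0 = z 0 - 1 ∧
      (z + vec ((0 : Fin 2), false)) 1 = z 1 := by
    intro z; simp [vec]; ring
  have e1t : ∀ z : Site 2, (z + vec ((1 : Fin 2), true)) 0 = z 0 ∧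
      (z + vec ((1 : Fin 2), true)) 1 = z 1 + 1 := by
    intro z; simp [vec]
  have e1f : ∀ z : Site 2, (z + vec ((1 : Fin 2), false)) 0 = z 0 ∧
      (z + vec ((1 : Fin 2), false)) 1 = z 1 - 1 := by
    intro z; simp [vec]; ring
  have hL : La a (ph a) z = (a * (pot a (z 0 + 1) (z 1) + pot a (z 0 - 1) (z 1) -
      2 * pot a (z 0) (z 1)) + (1 - a) * (pot a (z 0) (z 1 + 1) + pot a (z 0) (z 1 - 1) -
      2 * pot a (z 0) (z 1))) / 2 := by
    unfold La secondDiff ph
    rw [(e0t z).1, (e0t z).2, (e0f z).1, (e0f z).2, (e1t z).1, (e1t z).2, (e1f z).1, (e1f z).2]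
  have hG : La a (ph a) z = 1 / (2 * Real.pi) * ∫ θ in (-Real.pi)..Real.pi,
      (a * (FF a (z 0 + 1) (z 1).natAbs θ + FF a (z 0 - 1) (z 1).natAbs θ -
        2 * FF a (z 0) (z 1).natAbs θ) +
      (1 - a) * (FF a (z 0) (z 1 + 1).natAbs θ + FF a (z 0) (z 1 - 1).natAbs θ -
        2 * FF a (z 0) (z 1).natAbs θ)) / 2 := by
    rw [hL, intervalIntegral.integral_div, intervalIntegral.integral_add,
      intervalIntegral.integral_const_mul, intervalIntegral.integral_const_mul,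
      intervalIntegral.integral_sub, intervalIntegral.integral_sub,
      intervalIntegral.integral_add (hI' _ _) (hI' _ _),
      intervalIntegral.integral_add (hI' _ _) (hI' _ _), intervalIntegral.integral_const_mul]
    · simp only [pot_eq]
      ring
    · exact (hI' _ _).add (hI' _ _)
    · exact (hI' _ _).const_mul _
    · exact (hI' _ _).add (hI' _ _)
    · exact (hI' _ _).const_mul _
    · exact (((hI' _ _).add (hI' _ _)).sub ((hI' _ _).const_mul _)).const_mul _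
    · exact (((hI' _ _).add (hI' _ _)).sub ((hI' _ _).const_mul _)).const_mul _
  have hE : ∫ θ in (-Real.pi)..Real.pi,
      (a * (FF a (z 0 + 1) (z 1).natAbs θ + FF a (z 0 - 1) (z 1).natAbs θ -
        2 * FF a (z 0) (z 1).natAbs θ) +
      (1 - a) * (FF a (z 0) (z 1 + 1).natAbs θ + FF a (z 0) (z 1 - 1).natAbs θ -
        2 * FF a (z 0) (z 1).natAbs θ)) / 2 =
      ∫ θ in (-Real.pi)..Real.pi, (if z 1 = 0 then Real.cos (z 0 * θ) else 0) := by
    apply intervalIntegral.integral_congr_ae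
    have h0 : ∀ᵐ θ : ℝ ∂volume, θ ≠ 0 := by
      simp [ae_iff, measure_singleton]
    filter_upwards [h0] with θ hθ hmem
    rw [Set.uIoc_of_le (by linarith [Real.pi_pos])] at hmem
    have habs : |θ| ≤ Real.pi := abs_le.mpr ⟨hmem.1.le, hmem.2⟩
    have hD : dd a θ ≠ 0 := by
      have := (hb θ habs).1
      have h3 : 0 < c * |θ| := mul_pos hc (abs_pos.mpr hθ)
      linarith
    exact key a (z 0) (z 1) θ hD (hρ θ) (h1 θ) (h2 θ)
  rw [hG, hE]
  have hz : z = 0 ↔ z 0 = 0 ∧ z 1 = 0 := by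
    constructor
    · rintro rfl
      simp
    · rintro ⟨h, h'⟩
      ext i
      fin_cases i
      · exact h
      · exact h'
  by_cases hz1 : z 1 = 0
  · simp only [hz1, if_true]
    rw [int_cos]
    by_cases hz0 : z 0 = 0
    · rw [if_pos hz0, if_pos (hz.mpr ⟨hz0, hz1⟩)]
      have := Real.pi_ne_zero
      field_simp
    · rw [if_neg hz0, if_neg (fun h => hz0 (hz.mp h).1), mul_zero]
  · simp only [hz1, if_false]
    rw [if_neg (fun h => hz1 (hz.mp h).2)]
    simp

end Pool.Agent.Helper83.EXC
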