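import Pool.Agent.Helper99.EXC.GoalsE

/-!
# Packet ONE of project EXC (`MP_f41a60_pr`)
-/

open Finset MeasureTheory ProbabilityTheory Filter
open scoped ENNReal

namespace Pool.Agent.Helper83.EXC

open Pool.Agent.Helper99.ERW Pool.Agent.Helper99.EXC

/-- PACKET ONE. -/
theorem ONE : ONE_stmt := by
  intro Ω mΩ P μ _ env X h hP n e E hE g hg hB
  obtain ⟨B, hB⟩ := hB
  have hle := h.hist_le n
  have hstep : Integrable (Set.indicator (stepSet X n e) (fun _ => (1 : ℝ))) μ :=
    (integrable_const (1 : ℝ)).indicator (h.measurableSet_stepSet n e)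
  have hgm : Measurable g := hg.mono hle le_rfl
  have hgi : Integrable g μ := by
    refine Integrable.of_bound (C := B) hgm.aestronglyMeasurable ?_
    exact Filter.Eventually.of_forall fun w => by rw [Real.norm_eq_abs]; exact hB w
  have hmul : (g * Set.indicator (stepSet X n e) (fun _ => (1 : ℝ))) =
      Set.indicator (stepSet X n e) g := by
    funext w
    by_cases hw : w ∈ stepSet X n e
    · rw [Pi.mul_apply, Set.indicator_of_mem hw, Set.indicator_of_mem hw, mul_one]
    · rw [Pi.mul_apply, Set.indicator_of_notMem hw, Set.indicator_of_notMem hw, mul_zero]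
  have hmi : Integrable (g * Set.indicator (stepSet X n e) (fun _ => (1 : ℝ))) μ := by
    rw [hmul]
    exact hgi.indicator (h.measurableSet_stepSet n e)
  have h1 := setIntegral_condExp (μ := μ) hle hmi hE
  have h2 := condExp_mul_of_stronglyMeasurable_left (μ := μ) (m := hist env X n)
    (f := g) (g := Set.indicator (stepSet X n e) (fun _ => (1 : ℝ))) hg.stronglyMeasurable hmi hstep
  rw [setIntegral_congr_ae (hle _ hE)
    (g := fun w => env w (X n w) e (pastVisits (fun k => X k w) n) * g w)] at h1
  · rw [h1, hmul, setIntegral_indicator (h.measurableSet_stepSet n e)]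
  · filter_upwards [h.step n e, h2] with w hw1 hw2 _
    rw [hw2, Pi.mul_apply, mul_comm]
    congr 1

end Pool.Agent.Helper83.EXC
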